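import Mathlib

/-! CoinFirst (MP_0ef954_lc): local flow certificates on the union of two permutations. -/

set_option autoImplicit false
set_option linter.unusedSectionVars false

namespace Pool.Agent.CF.H87

open Finset Equiv

/-- a permutation which runs through every component of `G` -/
theorem exists_perm {n : ℕ} (G : SimpleGraph (Fin n)) :
    ∃ f : Perm (Fin n), (∀ v, G.Reachable v (f v)) ∧
      ∀ u v, G.Reachable u v → ∃ j : ℕ, (f ^ j) u = v := by
  classical
  set S : Fin n → Finset (Fin n) := fun v => univ.filter (fun u => G.Reachable v u) with hS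
  have hmem : ∀ v u, u ∈ S v ↔ G.Reachable v u := by
    intro v u
    simp [hS]
  have hself : ∀ v, v ∈ S v := fun v => (hmem v v).2 (SimpleGraph.Reachable.refl v)
  have heq : ∀ v u, u ∈ S v → S u = S v := by
    intro v u hu
    ext a
    rw [hmem, hmem]
    have hu' := (hmem v u).1 hu
    exact ⟨fun h => hu'.trans h, fun h => hu'.symm.trans h⟩
  have hc : ∀ T : Finset (Fin n), ∃ c : Perm (Fin n), c.IsCycleOn T := fun T => by
    obtain ⟨c, hc, -⟩ := Finset.exists_cycleOn T
    exact ⟨c, hc⟩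
  choose c hc using hc
  have hin : ∀ v u, u ∈ S v → c (S v) u ∈ S v := by
    intro v u hu
    exact_mod_cast (hc (S v)).1.mapsTo (Finset.mem_coe.2 hu)
  have hin' : ∀ v u, u ∈ S v → (c (S v))⁻¹ u ∈ S v := by
    intro v u hu
    exact_mod_cast (hc (S v)).inv.1.mapsTo (Finset.mem_coe.2 hu)
  let f : Perm (Fin n) :=
    { toFun := fun v => c (S v) v
      invFun := fun v => (c (S v))⁻¹ v
      left_inv := by
        intro v
        have h1 := heq v _ (hin v v (hself v))
        simp only [h1]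
        simp
      right_inv := by
        intro v
        have h1 := heq v _ (hin' v v (hself v))
        simp only [h1]
        simp }
  have hf : ∀ v, f v = c (S v) v := fun v => rfl
  have hp : ∀ v (j : ℕ), (f ^ j) v = (c (S v) ^ j) v ∧ (f ^ j) v ∈ S v := by
    intro v j
    induction j with
    | zero => exact ⟨rfl, hself v⟩
    | succ j ih =>
      rw [pow_succ', Perm.mul_apply, hf, heq v _ ih.2]
      refine ⟨?_, hin v _ ih.2⟩
      rw [ih.1, pow_succ', Perm.mul_apply]
  refine ⟨f, fun v => (hmem v _).1 (hin v v (hself v)), fun u v h => ?_⟩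
  obtain ⟨j, -, hj⟩ := (hc (S u)).exists_pow_eq (hself u) ((hmem u v).2 h)
  exact ⟨j, by rw [(hp u j).1, hj]⟩

/-- the opposite letter -/
def bar : Fin 4 → Fin 4 := ![1, 0, 3, 2]

theorem bar_bar (i : Fin 4) : bar (bar i) = i := by
  fin_cases i <;> rfl

/-- the four neighbour maps -/
def nb {n : ℕ} (f g : Perm (Fin n)) : Fin 4 → Perm (Fin n) := ![f, f⁻¹, g, g⁻¹]

theorem nb_bar {n : ℕ} (f g : Perm (Fin n)) (i : Fin 4) : nb f g (bar i) = (nb f g i)⁻¹ := by
  fin_cases i <;> simp [nb, bar]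

section
variable {n : ℕ}

/-- the walk with the letters of `l`, the last letter first -/
def walk (N : Fin 4 → Perm (Fin n)) : List (Fin 4) → Fin n → Fin n
  | [], v => v
  | i :: l, v => N i (walk N l v)

theorem walk_append (N : Fin 4 → Perm (Fin n)) (l l' : List (Fin 4)) (v : Fin n) :
    walk N (l ++ l') v = walk N l (walk N l' v) := by
  induction l with
  | nil => rfl
  | cons i l ih => simp only [List.cons_append, walk, ih]

theorem walk_inv {N : Fin 4 → Perm (Fin n)} (hN : ∀ i, N (bar i) = (N i)⁻¹) (l : List (Fin 4))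
    (v : Fin n) : walk N (l.map bar).reverse (walk N l v) = v := by
  induction l with
  | nil => rfl
  | cons i l ih =>
    have h1 : N (bar i) (N i (walk N l v)) = walk N l v := by
      rw [hN]
      simp
    simp only [List.map_cons, List.reverse_cons, walk_append, walk, h1]
    exact ih

open Classical in
/-- the ball of radius `k` -/
noncomputable def reach (N : Fin 4 → Perm (Fin n)) (u : Fin n) (k : ℕ) : Finset (Fin n) :=
  univ.filter (fun a => ∃ l : List (Fin 4), l.length ≤ k ∧ walk N l u = a)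

theorem mem_reach {N : Fin 4 → Perm (Fin n)} {u a : Fin n} {k : ℕ} :
    a ∈ reach N u k ↔ ∃ l : List (Fin 4), l.length ≤ k ∧ walk N l u = a := by
  simp [reach]

theorem self_mem_reach (N : Fin 4 → Perm (Fin n)) (u : Fin n) (k : ℕ) : u ∈ reach N u k :=
  mem_reach.2 ⟨[], by simp, rfl⟩

theorem reach_symm {N : Fin 4 → Perm (Fin n)} (hN : ∀ i, N (bar i) = (N i)⁻¹) {u a : Fin n} {k : ℕ}
    (h : a ∈ reach N u k) : u ∈ reach N a k := by
  obtain ⟨l, hl, rfl⟩ := mem_reach.1 h
  exact mem_reach.2 ⟨(l.map bar).reverse, by simpa using hl, walk_inv hN l u⟩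

theorem reach_trans {N : Fin 4 → Perm (Fin n)} {u a b : Fin n} {k k' : ℕ}
    (h : a ∈ reach N u k) (h' : b ∈ reach N a k') : b ∈ reach N u (k + k') := by
  obtain ⟨l, hl, rfl⟩ := mem_reach.1 h
  obtain ⟨l', hl', rfl⟩ := mem_reach.1 h'
  refine mem_reach.2 ⟨l' ++ l, ?_, walk_append N l' l u⟩
  rw [List.length_append]
  omega

theorem walk_mem {N : Fin 4 → Perm (Fin n)} {S : Finset (Fin n)} (hS : ∀ u ∈ S, ∀ i, N i u ∈ S)
    {u : Fin n} (hu : u ∈ S) (l : List (Fin 4)) : walk N l u ∈ S := by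
  induction l with
  | nil => exact hu
  | cons i l ih => exact hS _ ih i

/-- labels: mark, parent edges, flow -/
abbrev Lab (Γ : Type) : Type := Bool × (Fin 4 → Bool) × Γ

variable {Γ : Type} [AddCommGroup Γ]

/-- the mark with the smallest name in the ball -/
noncomputable def cell (N : Fin 4 → Perm (Fin n)) (s : Fin n → Lab Γ) (ρ : ℕ) (u : Fin n) : Fin n :=
  if h : ((reach N u ρ).filter (fun a => (s a).1 = true)).Nonempty then Finset.min' _ h else u

theorem cell_mem {N : Fin 4 → Perm (Fin n)} {s : Fin n → Lab Γ} {ρ : ℕ} {u : Fin n}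
    (h : ∃ a ∈ reach N u ρ, (s a).1 = true) :
    cell N s ρ u ∈ reach N u ρ ∧ (s (cell N s ρ u)).1 = true := by
  have hne : ((reach N u ρ).filter (fun a => (s a).1 = true)).Nonempty := by
    obtain ⟨a, ha, hs⟩ := h
    exact ⟨a, Finset.mem_filter.2 ⟨ha, hs⟩⟩
  have h2 := Finset.min'_mem _ hne
  rw [cell, dif_pos hne]
  exact Finset.mem_filter.1 h2

theorem cell_eq {N : Fin 4 → Perm (Fin n)} {s : Fin n → Lab Γ} {ρ : ℕ} {u m : Fin n}
    (hm : (s m).1 = true) (h : cell N s ρ u = m) : m ∈ reach N u ρ := by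
  by_cases hne : ((reach N u ρ).filter (fun a => (s a).1 = true)).Nonempty
  · rw [← h]
    obtain ⟨a, ha⟩ := hne
    exact (cell_mem ⟨a, (Finset.mem_filter.1 ha).1, (Finset.mem_filter.1 ha).2⟩).1
  · rw [cell, dif_neg hne] at h
    exact absurd ⟨u, Finset.mem_filter.2 ⟨self_mem_reach N u ρ, by rw [h]; exact hm⟩⟩ hne

/-- the local condition at the vertex `m` -/
def Loc (N : Fin 4 → Perm (Fin n)) (s : Fin n → Lab Γ) (r : Fin n) (z : Fin n → Γ) (ρ : ℕ)
    (m : Fin n) : Prop :=
  (∃ a ∈ reach N m ρ, (s a).1 = true) ∧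
  ((s m).1 = true →
    ((univ.filter (fun q : Fin n × Fin 4 => cell N s ρ q.1 = m ∧ (s q.1).2.1 q.2 = true)).card =
      if m = r then 0 else 1) ∧
    ((s m).2.2 = ∑ u ∈ univ.filter (fun u => cell N s ρ u = m),
      (z u + ∑ i : Fin 4, if (s (N (bar i) u)).2.1 i = true
        then (s (cell N s ρ (N (bar i) u))).2.2 else 0)) ∧
    (m = r → (s m).2.2 = 0))

/-- **Soundness.** -/
theorem sound {N : Fin 4 → Perm (Fin n)} (hN : ∀ i, N (bar i) = (N i)⁻¹) {s : Fin n → Lab Γ}
    {r : Fin n} {z : Fin n → Γ} {ρ : ℕ} (hL : ∀ m, Loc N s r z ρ m) {S : Finset (Fin n)}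
    (hS : ∀ u ∈ S, ∀ i, N i u ∈ S) : ∑ u ∈ S, z u = 0 := by
  classical
  have hc : ∀ u, cell N s ρ u ∈ reach N u ρ ∧ (s (cell N s ρ u)).1 = true :=
    fun u => cell_mem (hL u).1
  have hcS : ∀ u, u ∈ S ↔ cell N s ρ u ∈ S := by
    intro u
    constructor
    · intro hu
      obtain ⟨l, -, hl⟩ := mem_reach.1 (hc u).1
      rw [← hl]
      exact walk_mem hS hu l
    · intro hu
      obtain ⟨l, -, hl⟩ := mem_reach.1 (reach_symm hN (hc u).1)
      rw [← hl]
      exact walk_mem hS hu l
  obtain ⟨φ, hφ⟩ : ∃ φ : Fin n → Γ, φ = fun a => (s a).2.2 := ⟨_, rfl⟩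
  obtain ⟨MS, hMS⟩ : ∃ MS : Finset (Fin n), MS = S.filter (fun a => (s a).1 = true) := ⟨_, rfl⟩
  have hmS : ∀ u ∈ S, cell N s ρ u ∈ MS := by
    intro u hu
    rw [hMS]
    exact Finset.mem_filter.2 ⟨(hcS u).1 hu, (hc u).2⟩
  have hfib : ∀ m ∈ MS, univ.filter (fun u => cell N s ρ u = m) =
      S.filter (fun u => cell N s ρ u = m) := by
    intro m hm
    ext u
    simp only [Finset.mem_filter, Finset.mem_univ, true_and]
    constructor
    · intro h
      refine ⟨(hcS u).2 ?_, h⟩
      rw [h]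
      rw [hMS] at hm
      exact (Finset.mem_filter.1 hm).1
    · exact fun h => h.2
  -- summation of the flow equations
  have h1 : ∑ m ∈ MS, φ m = ∑ u ∈ S, (z u + ∑ i : Fin 4, if (s (N (bar i) u)).2.1 i = true
        then (s (cell N s ρ (N (bar i) u))).2.2 else 0) := by
    rw [← Finset.sum_fiberwise_of_maps_to hmS]
    refine Finset.sum_congr rfl fun m hm => ?_
    have hm' := hm
    rw [hMS] at hm'
    rw [← hfib m hm, hφ]
    exact ((hL m).2 (Finset.mem_filter.1 hm').2).2.1
  have h2 : ∑ u ∈ S, (∑ i : Fin 4, if (s (N (bar i) u)).2.1 i = true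
        then (s (cell N s ρ (N (bar i) u))).2.2 else 0) =
      ∑ u ∈ S, ∑ i : Fin 4, if (s u).2.1 i = true then φ (cell N s ρ u) else 0 := by
    rw [Finset.sum_comm, Finset.sum_comm (s := S)]
    refine Finset.sum_congr rfl fun i _ => ?_
    refine Finset.sum_nbij' (fun u => N (bar i) u) (fun u => N i u) ?_ ?_ ?_ ?_ ?_
    · intro u hu
      exact hS u hu _
    · intro u hu
      exact hS u hu _
    · intro u _
      rw [hN]
      simp
    · intro u _
      rw [hN]
      simp
    · intro u _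
      rw [hφ]
  have h3 : ∑ u ∈ S, ∑ i : Fin 4, (if (s u).2.1 i = true then φ (cell N s ρ u) else 0) =
      ∑ m ∈ MS, if m = r then 0 else φ m := by
    rw [← Finset.sum_fiberwise_of_maps_to hmS]
    refine Finset.sum_congr rfl fun m hm => ?_
    have hm' := hm
    rw [hMS] at hm'
    have h4 := ((hL m).2 (Finset.mem_filter.1 hm').2).1
    have h5 : ∑ u ∈ S.filter (fun u => cell N s ρ u = m), ∑ i : Fin 4,
        (if (s u).2.1 i = true then φ (cell N s ρ u) else 0) =
        ∑ q ∈ univ.filter (fun q : Fin n × Fin 4 => cell N s ρ q.1 = m ∧ (s q.1).2.1 q.2 = true),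
          φ m := by
      rw [← hfib m hm, Finset.sum_filter, Finset.sum_filter, Fintype.sum_prod_type]
      refine Finset.sum_congr rfl fun u _ => ?_
      by_cases hu : cell N s ρ u = m
      · rw [if_pos hu]
        refine Finset.sum_congr rfl fun i _ => ?_
        simp only [hu, true_and]
      · rw [if_neg hu]
        simp only [hu, false_and, if_false, Finset.sum_const_zero]
    rw [h5, Finset.sum_const, h4]
    split_ifs <;> simp
  rw [Finset.sum_add_distrib, h2, h3] at h1
  have h6 : ∑ m ∈ MS, φ m - ∑ m ∈ MS, (if m = r then 0 else φ m) = 0 := by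
    rw [← Finset.sum_sub_distrib]
    refine Finset.sum_eq_zero fun m hm => ?_
    rw [hMS] at hm
    split_ifs with h
    · rw [hφ, sub_zero]
      exact ((hL m).2 (Finset.mem_filter.1 hm).2).2.2 h
    · simp
  rw [h1] at h6
  simpa using h6

end

end Pool.Agent.CF.H87
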