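import Pool.Agent.Helper87_CF.Basic

/-! CoinFirst (MP_0ef954_lc): locality of the conditions and existence of certificates. -/

set_option autoImplicit false
set_option linter.unusedSectionVars false

namespace Pool.Agent.CF.H87

open Finset Equiv

variable {n : ℕ} {Γ : Type} [AddCommGroup Γ]

theorem reach_agree {N N' : Fin 4 → Perm (Fin n)} {m : Fin n} {R : ℕ}
    (h : ∀ l : List (Fin 4), l.length ≤ R → walk N l m = walk N' l m) {l : List (Fin 4)} {k : ℕ}
    (hl : l.length + k ≤ R) : reach N (walk N l m) k = reach N' (walk N l m) k := by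
  ext a
  rw [mem_reach, mem_reach]
  have h1 : ∀ l' : List (Fin 4), l'.length ≤ k → walk N l' (walk N l m) = walk N' l' (walk N l m) := by
    intro l' hl'
    have h2 := h (l' ++ l) (by rw [List.length_append]; omega)
    rw [walk_append, walk_append] at h2
    rw [h2, h l (by omega)]
  constructor
  · rintro ⟨l', hl', rfl⟩
    exact ⟨l', hl', (h1 l' hl').symm⟩
  · rintro ⟨l', hl', rfl⟩
    exact ⟨l', hl', h1 l' hl'⟩

theorem cell_agree {N N' : Fin 4 → Perm (Fin n)} (s : Fin n → Lab Γ) {ρ : ℕ} {u : Fin n}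
    (h : reach N u ρ = reach N' u ρ) : cell N s ρ u = cell N' s ρ u := by
  simp only [cell, h]

/-- **Locality.** -/
theorem loc_of_agree {N N' : Fin 4 → Perm (Fin n)} (hN : ∀ i, N (bar i) = (N i)⁻¹)
    (hN' : ∀ i, N' (bar i) = (N' i)⁻¹) {s : Fin n → Lab Γ} {r : Fin n} {z : Fin n → Γ} {ρ : ℕ}
    {m : Fin n} (h : ∀ l : List (Fin 4), l.length ≤ 2 * ρ + 1 → walk N l m = walk N' l m)
    (hl : Loc N s r z ρ m) : Loc N' s r z ρ m := by
  have hr0 : reach N m ρ = reach N' m ρ := reach_agree (l := []) h (by simp; omega)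
  have hc : ∀ u ∈ reach N m ρ, cell N s ρ u = cell N' s ρ u := by
    intro u hu
    obtain ⟨l, hl, rfl⟩ := mem_reach.1 hu
    exact cell_agree s (reach_agree h (by omega))
  have hnb : ∀ u ∈ reach N m ρ, ∀ i, N i u = N' i u := by
    intro u hu i
    obtain ⟨l, hl, rfl⟩ := mem_reach.1 hu
    have h1 := h (i :: l) (by simp; omega)
    simp only [walk] at h1
    rw [h1, h l (by omega)]
  have hc2 : ∀ u ∈ reach N m ρ, ∀ i, cell N s ρ (N i u) = cell N' s ρ (N i u) := by
    intro u hu i
    obtain ⟨l, hl, rfl⟩ := mem_reach.1 hu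
    exact cell_agree s (reach_agree (l := i :: l) h (by simp; omega))
  refine ⟨by rw [← hr0]; exact hl.1, fun hm => ?_⟩
  obtain ⟨h1, h2, h3⟩ := hl.2 hm
  have hiff : ∀ u, cell N s ρ u = m ↔ cell N' s ρ u = m := by
    intro u
    constructor
    · intro hu
      rw [← hc u (reach_symm hN (cell_eq hm hu))]
      exact hu
    · intro hu
      have h4 : u ∈ reach N m ρ := by
        rw [hr0]
        exact reach_symm hN' (cell_eq hm hu)
      rw [hc u h4]
      exact hu
  refine ⟨?_, ?_, h3⟩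
  · rw [← h1]
    congr 1
    ext q
    simp only [Finset.mem_filter, Finset.mem_univ, true_and, hiff]
  · rw [h2]
    have h5 : univ.filter (fun u => cell N' s ρ u = m) = univ.filter (fun u => cell N s ρ u = m) := by
      ext u
      simp only [Finset.mem_filter, Finset.mem_univ, true_and, hiff]
    rw [h5]
    refine Finset.sum_congr rfl fun u hu => ?_
    have h6 : u ∈ reach N m ρ := reach_symm hN (cell_eq hm (Finset.mem_filter.1 hu).2)
    congr 1
    refine Finset.sum_congr rfl fun i _ => ?_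
    rw [← hnb u h6, ← hc2 u h6]

/-! ### Certificates -/

theorem card_reach {N : Fin 4 → Perm (Fin n)} (hcon : ∀ u v, ∃ l, walk N l u = v) (a : Fin n) (k : ℕ)
    (hk : k + 1 ≤ n) : k + 1 ≤ (reach N a k).card := by
  induction k with
  | zero =>
    have h1 : (reach N a 0).Nonempty := ⟨a, self_mem_reach N a 0⟩
    have := h1.card_pos
    omega
  | succ k ih =>
    have ih := ih (by omega)
    have hsub : reach N a k ⊆ reach N a (k + 1) := by
      intro u hu
      obtain ⟨l, hl, h⟩ := mem_reach.1 hu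
      exact mem_reach.2 ⟨l, by omega, h⟩
    by_cases heq : reach N a k = reach N a (k + 1)
    · have hcl : ∀ u ∈ reach N a k, ∀ i, N i u ∈ reach N a k := by
        intro u hu i
        obtain ⟨l, hl, rfl⟩ := mem_reach.1 hu
        rw [heq]
        exact mem_reach.2 ⟨i :: l, by simp; omega, rfl⟩
      have hall : reach N a k = univ := by
        refine Finset.eq_univ_of_forall fun v => ?_
        obtain ⟨l, rfl⟩ := hcon a v
        exact walk_mem hcl (self_mem_reach N a k) l
      rw [← heq, hall, Finset.card_univ, Fintype.card_fin]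
      exact hk
    · have := Finset.card_lt_card (Finset.ssubset_iff_subset_ne.2 ⟨hsub, heq⟩)
      omega

/-- a maximal separated set -/
theorem exists_net {N : Fin 4 → Perm (Fin n)} (hN : ∀ i, N (bar i) = (N i)⁻¹)
    (hcon : ∀ u v, ∃ l, walk N l u = v) (κ : ℕ) (hn : κ + 1 ≤ n) :
    ∃ M : Finset (Fin n), (∀ a ∈ M, ∀ b ∈ M, b ∈ reach N a (2 * κ) → a = b) ∧
      (∀ v, ∃ a ∈ M, a ∈ reach N v (2 * κ)) ∧ M.card ≤ n / (κ + 1) := by
  classical
  obtain ⟨M, hM, hmax⟩ := Finset.exists_max_image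
    ((univ : Finset (Fin n)).powerset.filter
      (fun M => ∀ a ∈ M, ∀ b ∈ M, b ∈ reach N a (2 * κ) → a = b)) Finset.card
    ⟨∅, by simp⟩
  have hsep := (Finset.mem_filter.1 hM).2
  refine ⟨M, hsep, ?_, ?_⟩
  · intro v
    by_contra hcontra
    push Not at hcontra
    have hv : v ∉ M := fun h => hcontra v h (self_mem_reach N v _)
    have h1 : insert v M ∈ ((univ : Finset (Fin n)).powerset.filter
        (fun M => ∀ a ∈ M, ∀ b ∈ M, b ∈ reach N a (2 * κ) → a = b)) := by
      refine Finset.mem_filter.2 ⟨by simp, ?_⟩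
      intro a ha b hb hab
      rcases Finset.mem_insert.1 ha with ha' | ha'
      · rcases Finset.mem_insert.1 hb with hb' | hb'
        · rw [ha', hb']
        · rw [ha'] at hab
          exact absurd hab (hcontra b hb')
      · rcases Finset.mem_insert.1 hb with hb' | hb'
        · rw [hb'] at hab
          exact absurd (reach_symm hN hab) (hcontra a ha')
        · exact hsep a ha' b hb' hab
    have h2 := hmax _ h1
    rw [Finset.card_insert_of_notMem hv] at h2
    omega
  · rw [Nat.le_div_iff_mul_le (by omega)]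
    have hdis : ((M : Set (Fin n))).PairwiseDisjoint (fun a => reach N a κ) := by
      intro a ha b hb hab
      rw [Function.onFun, Finset.disjoint_left]
      intro c hca hcb
      have h1 := reach_trans hca (reach_symm hN hcb)
      rw [← two_mul] at h1
      exact hab (hsep a ha b hb h1)
    calc M.card * (κ + 1) = ∑ a ∈ M, (κ + 1) := by rw [Finset.sum_const, smul_eq_mul]
      _ ≤ ∑ a ∈ M, (reach N a κ).card := Finset.sum_le_sum fun a _ => card_reach hcon a κ hn
      _ = (M.biUnion (fun a => reach N a κ)).card := (Finset.card_biUnion hdis).symm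
      _ ≤ (univ : Finset (Fin n)).card := Finset.card_le_card (Finset.subset_univ _)
      _ = n := by rw [Finset.card_univ, Fintype.card_fin]

theorem cell_fst {N : Fin 4 → Perm (Fin n)} {s s' : Fin n → Lab Γ} (h : ∀ a, (s a).1 = (s' a).1)
    (ρ : ℕ) (u : Fin n) : cell N s ρ u = cell N s' ρ u := by
  have h1 : (reach N u ρ).filter (fun a => (s a).1 = true) =
      (reach N u ρ).filter (fun a => (s' a).1 = true) := by
    ext a
    simp only [Finset.mem_filter, h]
  simp only [cell, h1]

/-- a rooted tree has a flow with given demands -/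
theorem exists_flow (M : Finset (Fin n)) (r : Fin n) (p : Fin n → Fin n) (rk : Fin n → ℕ)
    (hrk : ∀ m ∈ M, m ≠ r → rk (p m) < rk m) (d : Fin n → Γ) :
    ∃ φ : Fin n → Γ, ∀ m ∈ M, φ m = d m + ∑ m' ∈ M.filter (fun m' => m' ≠ r ∧ p m' = m), φ m' := by
  classical
  obtain ⟨T, hT⟩ : ∃ T : (Fin n → Γ) → (Fin n → Γ), ∀ ψ m, T ψ m =
      d m + ∑ m' ∈ M.filter (fun m' => m' ≠ r ∧ p m' = m), ψ m' := ⟨_, fun _ _ => rfl⟩
  obtain ⟨K, hK⟩ : ∃ K : ℕ, ∀ m, rk m < K := by
    refine ⟨(univ.sup rk) + 1, fun m => ?_⟩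
    have := Finset.le_sup (f := rk) (Finset.mem_univ m)
    omega
  have key : ∀ j : ℕ, ∀ m, K ≤ rk m + j → (T^[j + 1] 0) m = (T^[j] 0) m := by
    intro j
    induction j with
    | zero =>
      intro m hm
      have := hK m
      omega
    | succ j ih =>
      intro m hm
      have e1 : (T^[j + 1 + 1] 0) m = T (T^[j + 1] 0) m := by rw [Function.iterate_succ_apply']
      have e2 : (T^[j + 1] 0) m = T (T^[j] 0) m := by rw [Function.iterate_succ_apply']
      rw [e1, e2, hT, hT]
      congr 1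
      refine Finset.sum_congr rfl fun m' hm' => ?_
      obtain ⟨h1, h2, h3⟩ := Finset.mem_filter.1 hm'
      have h4 := hrk m' h1 h2
      rw [h3] at h4
      exact ih m' (by omega)
  refine ⟨T^[K] 0, fun m _ => ?_⟩
  rw [← key K m (by omega), Function.iterate_succ_apply', hT]

/-- **Completeness.** -/
theorem complete {N : Fin 4 → Perm (Fin n)} (hN : ∀ i, N (bar i) = (N i)⁻¹)
    (hcon : ∀ u v, ∃ l, walk N l u = v) (κ : ℕ) (hn : κ + 1 ≤ n) (z : Fin n → Γ)
    (hz : ∑ v, z v = 0) :
    ∃ (s : Fin n → Lab Γ) (r : Fin n),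
      (∃ M U : Finset (Fin n), M.card ≤ n / (κ + 1) ∧ U.card ≤ n / (κ + 1) ∧
        ∀ v, v ∉ M → v ∉ U → s v = (false, fun _ => false, 0)) ∧
      ∀ m, Loc N s r z (2 * κ) m := by
  classical
  obtain ⟨M, hsep, hnet, hcard⟩ := exists_net hN hcon κ hn
  obtain ⟨s0, hs0⟩ : ∃ s0 : Fin n → Lab Γ, s0 = fun v => (decide (v ∈ M), fun _ => false, 0) := ⟨_, rfl⟩
  have hs0' : ∀ a, (s0 a).1 = true ↔ a ∈ M := by
    intro a
    rw [hs0]
    simp
  obtain ⟨c, hc⟩ : ∃ c : Fin n → Fin n, ∀ u, c u = cell N s0 (2 * κ) u := ⟨_, fun _ => rfl⟩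
  have hcM : ∀ u, c u ∈ M := by
    intro u
    obtain ⟨a, ha, hau⟩ := hnet u
    rw [hc, ← hs0']
    exact (cell_mem ⟨a, hau, (hs0' a).2 ha⟩).2
  have hcr : ∀ u, c u ∈ reach N u (2 * κ) := by
    intro u
    obtain ⟨a, ha, hau⟩ := hnet u
    rw [hc]
    exact (cell_mem ⟨a, hau, (hs0' a).2 ha⟩).1
  have hcself : ∀ m ∈ M, c m = m := fun m hm => (hsep m hm _ (hcM m) (hcr m)).symm
  have hn0 : 0 < n := by omega
  obtain ⟨r, hr⟩ : ∃ r, r ∈ M := ⟨_, hcM ⟨0, hn0⟩⟩
  -- distances to the root
  have hex : ∀ u, ∃ k, r ∈ reach N u k := by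
    intro u
    obtain ⟨l, hl⟩ := hcon u r
    exact ⟨l.length, mem_reach.2 ⟨l, le_refl _, hl⟩⟩
  obtain ⟨D, hD1, hD2⟩ : ∃ D : Fin n → ℕ, (∀ u, r ∈ reach N u (D u)) ∧
      ∀ u k, r ∈ reach N u k → D u ≤ k :=
    ⟨fun u => Nat.find (hex u), fun u => Nat.find_spec (hex u), fun u k h => Nat.find_min' (hex u) h⟩
  obtain ⟨rk, hrk⟩ : ∃ rk : Fin n → ℕ, ∀ m, rk m = sInf {k | ∃ u, c u = m ∧ D u = k} :=
    ⟨_, fun _ => rfl⟩
  have hstep : ∀ m ∈ M, m ≠ r → ∃ (u : Fin n) (i : Fin 4), c u = m ∧ D (N i u) < rk m := by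
    intro m hm hmr
    have hne : ({k | ∃ u, c u = m ∧ D u = k} : Set ℕ).Nonempty := ⟨D m, m, hcself m hm, rfl⟩
    obtain ⟨u, hu, hDu⟩ := Nat.sInf_mem hne
    rw [← hrk] at hDu
    obtain ⟨l, hl, hlr⟩ := mem_reach.1 (hD1 u)
    rcases List.eq_nil_or_concat l with h0 | ⟨l', i, h0⟩
    · rw [h0] at hlr
      simp only [walk] at hlr
      rw [hlr, hcself r hr] at hu
      exact absurd hu.symm hmr
    · refine ⟨u, i, hu, ?_⟩
      rw [h0, List.concat_eq_append, walk_append] at hlr
      simp only [walk] at hlr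
      rw [h0, List.concat_eq_append, List.length_append, List.length_singleton] at hl
      have h1 := hD2 (N i u) l'.length (mem_reach.2 ⟨l', le_refl _, hlr⟩)
      omega
  have hch : ∀ m, ∃ q : Fin n × Fin 4, m ∈ M → m ≠ r → c q.1 = m ∧ D (N q.2 q.1) < rk m := by
    intro m
    by_cases h : m ∈ M ∧ m ≠ r
    · obtain ⟨u, i, h1, h2⟩ := hstep m h.1 h.2
      exact ⟨(u, i), fun _ _ => ⟨h1, h2⟩⟩
    · exact ⟨(m, 0), fun h1 h2 => absurd ⟨h1, h2⟩ h⟩
  choose Q hQ using hch
  obtain ⟨p, hp⟩ : ∃ p : Fin n → Fin n, ∀ m, p m = c (N (Q m).2 (Q m).1) := ⟨_, fun _ => rfl⟩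
  have hrkp : ∀ m ∈ M, m ≠ r → rk (p m) < rk m := by
    intro m hm hmr
    refine lt_of_le_of_lt ?_ (hQ m hm hmr).2
    rw [hrk (p m)]
    exact Nat.sInf_le ⟨_, (hp m).symm, rfl⟩
  obtain ⟨φ, hφ⟩ := exists_flow M r p rk hrkp
    (fun m => ∑ u ∈ univ.filter (fun u => c u = m), z u)
  -- the flow out of the root
  have hφr : φ r = 0 := by
    have h1 : ∑ m ∈ M, φ m = ∑ m ∈ M, (∑ u ∈ univ.filter (fun u => c u = m), z u) +
        ∑ m ∈ M, ∑ m' ∈ M.filter (fun m' => m' ≠ r ∧ p m' = m), φ m' := by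
      rw [← Finset.sum_add_distrib]
      exact Finset.sum_congr rfl fun m hm => hφ m hm
    have h2 : ∑ m ∈ M, (∑ u ∈ univ.filter (fun u => c u = m), z u) = 0 := by
      rw [Finset.sum_fiberwise_of_maps_to (fun u _ => hcM u), hz]
    have h3 : ∑ m ∈ M, ∑ m' ∈ M.filter (fun m' => m' ≠ r ∧ p m' = m), φ m' =
        ∑ m' ∈ M.erase r, φ m' := by
      have h4 : ∀ m' ∈ M.erase r, p m' ∈ M := fun m' _ => by
        rw [hp]
        exact hcM _
      rw [← Finset.sum_fiberwise_of_maps_to h4]
      refine Finset.sum_congr rfl fun m _ => ?_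
      refine Finset.sum_congr ?_ fun _ _ => rfl
      ext m'
      simp only [Finset.mem_filter, Finset.mem_erase]
      tauto
    rw [h2, h3, zero_add, ← Finset.add_sum_erase M φ hr] at h1
    simpa using h1
  obtain ⟨s, hs⟩ : ∃ s : Fin n → Lab Γ, s = fun v => (decide (v ∈ M),
      fun i => decide (∃ m ∈ M, m ≠ r ∧ Q m = (v, i)), if v ∈ M then φ v else 0) := ⟨_, rfl⟩
  have hs1 : ∀ a, (s a).1 = true ↔ a ∈ M := by
    intro a
    rw [hs]
    simp
  have hs2 : ∀ a i, (s a).2.1 i = true ↔ ∃ m ∈ M, m ≠ r ∧ Q m = (a, i) := by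
    intro a i
    rw [hs]
    simp
  have hs3 : ∀ a ∈ M, (s a).2.2 = φ a := by
    intro a ha
    rw [hs]
    simp only [if_pos ha]
  have hcell : ∀ u, cell N s (2 * κ) u = c u := by
    intro u
    rw [hc]
    refine cell_fst (fun a => ?_) _ u
    rw [hs, hs0]
  refine ⟨s, r, ⟨M, M.image (fun m => (Q m).1), hcard, Finset.card_image_le.trans hcard, ?_⟩, ?_⟩
  · intro v hv hv'
    rw [hs]
    simp only [if_neg hv]
    refine Prod.ext ?_ (Prod.ext ?_ rfl)
    · simp only [decide_eq_false_iff_not]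
      exact hv
    · funext i
      simp only [decide_eq_false_iff_not]
      rintro ⟨m, hm, -, hQm⟩
      refine hv' (Finset.mem_image.2 ⟨m, hm, ?_⟩)
      rw [hQm]
  · intro m
    refine ⟨?_, fun hm => ?_⟩
    · obtain ⟨a, ha, hau⟩ := hnet m
      exact ⟨a, hau, (hs1 a).2 ha⟩
    · have hmM := (hs1 m).1 hm
      refine ⟨?_, ?_, ?_⟩
      · by_cases hmr : m = r
        · rw [if_pos hmr, Finset.card_eq_zero, Finset.filter_eq_empty_iff]
          rintro ⟨u, i⟩ - ⟨h1, h2⟩
          rw [hcell] at h1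
          obtain ⟨m', hm', hm'r, hQm'⟩ := (hs2 _ _).1 h2
          have h3 := (hQ m' hm' hm'r).1
          rw [hQm'] at h3
          simp only at h1 h3
          exact hm'r (h3.symm.trans (h1.trans hmr))
        · rw [if_neg hmr, Finset.card_eq_one]
          refine ⟨Q m, ?_⟩
          ext ⟨u, i⟩
          simp only [Finset.mem_filter, Finset.mem_univ, true_and, Finset.mem_singleton, hcell]
          constructor
          · rintro ⟨h1, h2⟩
            obtain ⟨m', hm', hm'r, hQm'⟩ := (hs2 _ _).1 h2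
            have h3 := (hQ m' hm' hm'r).1
            rw [hQm'] at h3
            simp only at h3
            rw [← h1, h3, hQm']
          · intro h
            have h3 := (hQ m hmM hmr).1
            rw [← h] at h3
            exact ⟨h3, (hs2 _ _).2 ⟨m, hmM, hmr, h.symm⟩⟩
      · rw [hs3 m hmM, hφ m hmM, Finset.sum_add_distrib]
        have hf : univ.filter (fun u => cell N s (2 * κ) u = m) = univ.filter (fun u => c u = m) := by
          ext u
          simp only [Finset.mem_filter, hcell]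
        rw [hf]
        congr 1
        -- the flow which enters the cell
        have h1 : ∑ u ∈ univ.filter (fun u => c u = m), (∑ i : Fin 4,
            if (s (N (bar i) u)).2.1 i = true then (s (cell N s (2 * κ) (N (bar i) u))).2.2 else 0) =
            ∑ q ∈ univ.filter (fun q : Fin n × Fin 4 => c q.1 = m ∧
              (s (N (bar q.2) q.1)).2.1 q.2 = true), φ (c (N (bar q.2) q.1)) := by
          rw [Finset.sum_filter, Finset.sum_filter, Fintype.sum_prod_type]
          refine Finset.sum_congr rfl fun u _ => ?_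
          by_cases hu : c u = m
          · rw [if_pos hu]
            refine Finset.sum_congr rfl fun i _ => ?_
            simp only [hu, true_and, hcell]
            rw [hs3 _ (hcM _)]
          · rw [if_neg hu]
            simp only [hu, false_and, if_false, Finset.sum_const_zero]
        rw [h1]
        refine Finset.sum_nbij' (fun m' => (N (Q m').2 (Q m').1, (Q m').2))
          (fun q => c (N (bar q.2) q.1)) ?_ ?_ ?_ ?_ ?_
        · intro m' hm'
          obtain ⟨h2, h3, h4⟩ := Finset.mem_filter.1 hm'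
          refine Finset.mem_filter.2 ⟨Finset.mem_univ _, ?_, ?_⟩
          · rw [← h4, hp]
          · simp only
            refine (hs2 _ _).2 ⟨m', h2, h3, ?_⟩
            rw [hN]
            simp
        · rintro ⟨u, i⟩ hq
          obtain ⟨-, h2, h3⟩ := Finset.mem_filter.1 hq
          obtain ⟨m', hm', hm'r, hQm'⟩ := (hs2 _ _).1 h3
          have h4 := (hQ m' hm' hm'r).1
          rw [hQm'] at h4
          simp only at h2 h4 ⊢
          rw [h4]
          refine Finset.mem_filter.2 ⟨hm', hm'r, ?_⟩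
          rw [hp, hQm', hN]
          simpa using h2
        · intro m' hm'
          obtain ⟨h2, h3, h4⟩ := Finset.mem_filter.1 hm'
          simp only
          rw [hN]
          simpa using (hQ m' h2 h3).1
        · rintro ⟨u, i⟩ hq
          obtain ⟨-, h2, h3⟩ := Finset.mem_filter.1 hq
          obtain ⟨m', hm', hm'r, hQm'⟩ := (hs2 _ _).1 h3
          have h4 := (hQ m' hm' hm'r).1
          rw [hQm'] at h4
          simp only at h4 ⊢
          rw [h4, hQm', hN]
          simp
        · intro m' hm'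
          obtain ⟨h2, h3, h4⟩ := Finset.mem_filter.1 hm'
          simp only
          rw [hN]
          simp [(hQ m' h2 h3).1]
      · intro hmr
        rw [hs3 m hmM, hmr, hφr]

end Pool.Agent.CF.H87
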