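import Pool.Agent.Helper42_MA.Count
import Pool.Agent.Helper87_CF.Compl

/-! CoinFirst (MP_0ef954_lc): the protocols. -/

set_option autoImplicit false
set_option linter.unusedSectionVars false

namespace Pool.Agent.CF.H87

open Finset Equiv Helper42_MA

section perms
variable {n : ℕ}

/-- a permutation which runs through every component of `x` -/
noncomputable def pf (x : SimpleGraph (Fin n)) : Perm (Fin n) := (exists_perm x).choose

theorem pf_reach (x : SimpleGraph (Fin n)) (v : Fin n) : x.Reachable v (pf x v) :=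
  (exists_perm x).choose_spec.1 v

theorem pf_pow (x : SimpleGraph (Fin n)) {u v : Fin n} (h : x.Reachable u v) :
    ∃ j : ℕ, (pf x ^ j) u = v := (exists_perm x).choose_spec.2 u v h

/-- the neighbour maps of the pair -/
noncomputable def NN (x y : SimpleGraph (Fin n)) : Fin 4 → Perm (Fin n) := nb (pf x) (pf y)

theorem NN_bar (x y : SimpleGraph (Fin n)) (i : Fin 4) : NN x y (bar i) = (NN x y i)⁻¹ :=
  nb_bar _ _ i

theorem pf_reach_inv (x : SimpleGraph (Fin n)) (v : Fin n) : x.Reachable v ((pf x)⁻¹ v) := by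
  have h := pf_reach x ((pf x)⁻¹ v)
  rw [show pf x ((pf x)⁻¹ v) = v by simp] at h
  exact h.symm

theorem NN_reach (x y : SimpleGraph (Fin n)) (i : Fin 4) (v : Fin n) :
    (x ⊔ y).Reachable v (NN x y i v) := by
  have hx : x ≤ x ⊔ y := le_sup_left
  have hy : y ≤ x ⊔ y := le_sup_right
  fin_cases i
  · exact (pf_reach x v).mono hx
  · exact (pf_reach_inv x v).mono hx
  · exact (pf_reach y v).mono hy
  · exact (pf_reach_inv y v).mono hy

theorem walk_replicate (N : Fin 4 → Perm (Fin n)) (i : Fin 4) (j : ℕ) (u : Fin n) :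
    walk N (List.replicate j i) u = (N i ^ j) u := by
  induction j with
  | zero => rfl
  | succ j ih => rw [List.replicate_succ, walk, ih, pow_succ', Perm.mul_apply]

theorem exists_walk (x y : SimpleGraph (Fin n)) {u v : Fin n} (h : (x ⊔ y).Reachable u v) :
    ∃ l, walk (NN x y) l u = v := by
  obtain ⟨p⟩ := h
  induction p with
  | nil => exact ⟨[], rfl⟩
  | @cons a b c hab _ ih =>
    obtain ⟨l, hl⟩ := ih
    have h1 : ∃ l', walk (NN x y) l' a = b := by
      rcases hab with h | h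
      · obtain ⟨j, hj⟩ := pf_pow x h.reachable
        exact ⟨List.replicate j 0, by rw [walk_replicate]; exact hj⟩
      · obtain ⟨j, hj⟩ := pf_pow y h.reachable
        exact ⟨List.replicate j 2, by rw [walk_replicate]; exact hj⟩
    obtain ⟨l', hl'⟩ := h1
    exact ⟨l ++ l', by rw [walk_append, hl', hl]⟩

end perms

/-- some component of the union has nonzero weight -/
def Bad {n : ℕ} {Γ : Type} [AddCommGroup Γ] (z : Fin n → Γ) (x y : SimpleGraph (Fin n)) : Prop :=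
  ∃ S : Finset (Fin n), (∀ u v, u ∈ S → (x ⊔ y).Reachable u v → v ∈ S) ∧ ∑ u ∈ S, z u ≠ 0

theorem exists_code (n : ℕ) : Nonempty ((Fin n × Fin n) ↪ (Fin (2 * Nat.clog 2 n) → Bool)) := by
  apply Function.Embedding.nonempty_of_card_le
  have h1 : n ≤ 2 ^ Nat.clog 2 n := Nat.le_pow_clog (by norm_num) n
  simp only [Fintype.card_prod, Fintype.card_fin, Fintype.card_fun, Fintype.card_bool]
  calc n * n ≤ 2 ^ Nat.clog 2 n * 2 ^ Nat.clog 2 n := Nat.mul_le_mul h1 h1
    _ = 2 ^ (2 * Nat.clog 2 n) := by rw [two_mul, pow_add]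

theorem pow_big (A q : ℕ) (hq : 2 * A + 6 ≤ q) : A * (q + 1) ≤ 2 ^ q := by
  obtain ⟨t, rfl⟩ : ∃ t, q = A + t := ⟨q - A, by omega⟩
  have h1 : A ≤ 2 ^ A := Nat.lt_two_pow_self.le
  have h2 : ∀ t : ℕ, 3 ≤ t → 2 * t + 1 ≤ 2 ^ t := by
    intro t ht
    induction t, ht using Nat.le_induction with
    | base => norm_num
    | succ t _ ih => rw [pow_succ]; omega
  have h3 := h2 t (by omega)
  rw [pow_add]
  exact Nat.mul_le_mul h1 (by omega)

theorem clog_ge {m n : ℕ} (h : 2 ^ m ≤ n) : m ≤ Nat.clog 2 n := by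
  by_contra hcon
  push Not at hcon
  have h1 : n ≤ 2 ^ Nat.clog 2 n := Nat.le_pow_clog (by norm_num) n
  have h2 : 2 ^ Nat.clog 2 n < 2 ^ m := Nat.pow_lt_pow_right (by norm_num) hcon
  omega

theorem loglog_small (d : ℕ) : ∃ N : ℕ, ∀ n, N ≤ n →
    40 * (Nat.clog 2 (Nat.clog 2 n) * d) ≤ Nat.clog 2 n := by
  refine ⟨2 ^ ((40 * d + 1) * (2 * (40 * d + 1) + 6)), fun n hn => ?_⟩
  have hL := clog_ge hn
  obtain ⟨L, hL'⟩ : ∃ L, L = Nat.clog 2 n := ⟨_, rfl⟩
  obtain ⟨A, hA⟩ : ∃ A, A = 40 * d + 1 := ⟨_, rfl⟩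
  rw [← hL']
  rw [← hL', ← hA] at hL
  have hA0 : 0 < A := by omega
  obtain ⟨q, hq⟩ : ∃ q, q = L / A := ⟨_, rfl⟩
  have h1 : 2 * A + 6 ≤ q := by
    rw [hq, Nat.le_div_iff_mul_le hA0, mul_comm]
    exact hL
  have h2 := pow_big A q h1
  have h3 : L < A * (q + 1) := by
    rw [hq]
    exact Nat.lt_mul_div_succ L hA0
  have h4 : Nat.clog 2 L ≤ q := by
    rw [Nat.clog_le_iff_le_pow (by norm_num)]
    omega
  have h5 : A * q ≤ L := by
    rw [hq]
    exact Nat.mul_div_le L A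
  calc 40 * (Nat.clog 2 L * d) = (40 * d) * Nat.clog 2 L := by ring
    _ ≤ A * q := Nat.mul_le_mul (by omega) h4
    _ ≤ L := h5

/-- the protocol for the weight `z`, before the choice of the constants -/
theorem proto {Γ : Type} [AddCommGroup Γ] [Fintype Γ] (κ : ℕ) :
    ∃ N : ℕ, ∀ n : ℕ, N ≤ n → ∀ z : Fin n → Γ, ∑ v, z v = 0 →
      HasMA n (2 * (Real.log (Fintype.card (Sparse n (Lab Γ) (false, fun _ => false, 0)
        (2 * (n / (κ + 1))))) + Real.log n) + 1 + n / Nat.clog 2 n)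
        (fun x y => (x ⊔ y).Connected) (Bad z) := by
  classical
  obtain ⟨N0, hN0⟩ := engine_final
  obtain ⟨R, hR⟩ : ∃ R, R = 2 * (2 * κ) + 1 := ⟨_, rfl⟩
  have hfin : Finite {l : List (Fin 4) // l.length ≤ R} := by
    have := List.finite_length_le (Fin 4) R
    exact this.to_subtype
  obtain ⟨d, ⟨ix⟩⟩ : ∃ d : ℕ, Nonempty ({l : List (Fin 4) // l.length ≤ R} ≃ Fin d) :=
    Finite.exists_equiv_fin _
  obtain ⟨N1, hN1⟩ := loglog_small d
  refine ⟨max (max N0 N1) (κ + 1), fun n hn z hz => ?_⟩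
  have hn0 : N0 ≤ n := (le_max_left _ _).trans ((le_max_left _ _).trans hn)
  have hn1 : N1 ≤ n := (le_max_right _ _).trans ((le_max_left _ _).trans hn)
  have hn2 : κ + 1 ≤ n := (le_max_right _ _).trans hn
  have hnpos : 0 < n := by omega
  haveI : Nonempty (Fin n) := ⟨⟨0, hnpos⟩⟩
  obtain ⟨code⟩ := exists_code n
  have key := hN0 n hn0 (2 * Nat.clog 2 n) d (by omega) (hN1 n hn1)
    (Sparse n (Lab Γ) (false, fun _ => false, 0) (2 * (n / (κ + 1))) × Fin n)
    (fun _ _ => True) (fun _ _ => True)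
    (fun _ x v => code (pf x v, (pf x)⁻¹ v))
    (fun w y v e => ∃ (x' : SimpleGraph (Fin n)) (m : Fin n),
      (∀ k, e k = code (pf x' (v k), (pf x')⁻¹ (v k))) ∧
      (∀ k, v k = walk (NN x' y) (ix.symm k).1 m) ∧ ¬ Loc (NN x' y) w.1.1 w.2 z (2 * κ) m)
    (fun x y => (x ⊔ y).Connected) (Bad z) ?_ ?_
  · refine key.mono (le_of_eq ?_) (fun _ _ h => h) (fun _ _ h => h)
    rw [Fintype.card_prod, Fintype.card_fin, Nat.cast_mul, Real.log_mul]
    · exact_mod_cast Fintype.card_ne_zero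
    · exact_mod_cast hnpos.ne'
  · -- completeness
    intro x y hxy
    obtain ⟨s, r, ⟨M, U, hM, hU, hs⟩, hloc⟩ := complete (NN_bar x y)
      (fun u v => exists_walk x y (hxy.preconnected u v)) κ hn2 z hz
    have hcard : ∀ inst : DecidablePred (fun v => s v ≠ ((false, fun _ => false, 0) : Lab Γ)),
        (@Finset.filter (Fin n) (fun v => s v ≠ ((false, fun _ => false, 0) : Lab Γ)) inst univ).card ≤
          2 * (n / (κ + 1)) := by
      intro inst
      have h1 : @Finset.filter (Fin n) (fun v => s v ≠ ((false, fun _ => false, 0) : Lab Γ)) inst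
          univ ⊆ M ∪ U := by
        intro v hv
        by_contra hcon
        rw [Finset.mem_union, not_or] at hcon
        exact (Finset.mem_filter.1 hv).2 (hs v hcon.1 hcon.2)
      have h2 := (Finset.card_le_card h1).trans (Finset.card_union_le M U)
      omega
    refine ⟨(⟨s, hcard _⟩, r), trivial, trivial, ?_⟩
    rintro v ⟨x', m, he, hv, hnl⟩
    apply hnl
    refine loc_of_agree (NN_bar x y) (NN_bar x' y) ?_ (hloc m)
    intro l
    induction l with
    | nil => intro _; rfl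
    | cons i l ih =>
      intro hl
      rw [List.length_cons] at hl
      have ih := ih (by omega)
      simp only [walk]
      rw [ih]
      have h1 := hv (ix ⟨l, by omega⟩)
      rw [ix.symm_apply_apply] at h1
      rw [← h1]
      have h2 := code.injective (he (ix ⟨l, by omega⟩))
      have h3 : pf x (v (ix ⟨l, by omega⟩)) = pf x' (v (ix ⟨l, by omega⟩)) := congrArg Prod.fst h2
      have h4 : (pf x)⁻¹ (v (ix ⟨l, by omega⟩)) = (pf x')⁻¹ (v (ix ⟨l, by omega⟩)) :=
        congrArg Prod.snd h2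
      fin_cases i
      · exact h3
      · exact h4
      · rfl
      · rfl
  · -- soundness
    intro x y hxy w _ _
    obtain ⟨S, hS, hSz⟩ := hxy
    by_contra hcon
    rw [not_exists] at hcon
    apply hSz
    refine sound (NN_bar x y) (s := w.1.1) (r := w.2) (ρ := 2 * κ) ?_ ?_
    · intro m
      by_contra hm
      exact hcon (fun k => walk (NN x y) (ix.symm k).1 m) ⟨x, m, fun _ => rfl, fun _ => rfl, hm⟩
    · intro u hu i
      exact hS u _ hu (NN_reach x y i u)

/-- **The protocol for the weight `z`.** -/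
theorem proto_eps {Γ : Type} [AddCommGroup Γ] [Fintype Γ] (ε : ℝ) (hε : 0 < ε) :
    ∃ N : ℕ, ∀ n : ℕ, N ≤ n → ∀ z : Fin n → Γ, ∑ v, z v = 0 →
      HasMA n (ε * n) (fun x y => (x ⊔ y).Connected) (Bad z) := by
  obtain ⟨c, hc⟩ : ∃ c : ℝ, c = Fintype.card (Lab Γ) := ⟨_, rfl⟩
  have hc0 : 0 ≤ c := by rw [hc]; positivity
  obtain ⟨Z, hZ⟩ : ∃ Z : ℝ, Z = 1 + 8 * c / ε := ⟨_, rfl⟩
  have hZ1 : 1 ≤ Z := by
    rw [hZ]
    have : 0 ≤ 8 * c / ε := by positivity
    linarith
  have hZc : c / Z ≤ ε / 8 := by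
    rw [div_le_iff₀ (by linarith), hZ]
    have h1 : ε / 8 * (1 + 8 * c / ε) = ε / 8 + c := by field_simp
    rw [h1]
    linarith
  obtain ⟨κ, hκ⟩ := exists_nat_ge (16 * Real.log Z / ε)
  have hlZ : 0 ≤ Real.log Z := Real.log_nonneg hZ1
  have hκ' : 2 * Real.log Z / (κ + 1) ≤ ε / 8 := by
    rw [div_le_iff₀ (by positivity)]
    rw [div_le_iff₀ hε] at hκ
    nlinarith
  obtain ⟨N0, hN0⟩ := proto (Γ := Γ) κ
  obtain ⟨N1, hN1⟩ : ∃ N1 : ℕ, ∀ n : ℕ, N1 ≤ n → Real.log n ≤ ε / 16 * n := by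
    have h1 := (Real.isLittleO_log_id_atTop.comp_tendsto tendsto_natCast_atTop_atTop).def
      (c := ε / 16) (by positivity)
    obtain ⟨N1, hN1⟩ := Filter.eventually_atTop.1 h1
    refine ⟨N1, fun n hn => ?_⟩
    have h2 := hN1 n hn
    simp only [Function.comp_apply, id_eq, Real.norm_eq_abs, Nat.abs_cast] at h2
    exact (le_abs_self _).trans h2
  obtain ⟨m, hm⟩ := exists_nat_ge (8 / ε)
  refine ⟨max (max N0 N1) (2 ^ m), fun n hn z hz => ?_⟩
  have hn0 : N0 ≤ n := (le_max_left _ _).trans ((le_max_left _ _).trans hn)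
  have hn1 : N1 ≤ n := (le_max_right _ _).trans ((le_max_left _ _).trans hn)
  have hn2 : 2 ^ m ≤ n := (le_max_right _ _).trans hn
  have hmn : (m : ℝ) ≤ n := by
    have h3 : m ≤ n := Nat.lt_two_pow_self.le.trans hn2
    exact_mod_cast h3
  have hmc : (m : ℝ) ≤ Nat.clog 2 n := by exact_mod_cast clog_ge hn2
  have h8 : 0 < 8 / ε := by positivity
  refine (hN0 n hn0 z hz).mono ?_ (fun _ _ h => h) (fun _ _ h => h)
  have h1 := log_card_sparse_le n (Lab Γ) (false, fun _ => false, 0) (2 * (n / (κ + 1))) Z hZ1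
  have h2 : (((2 * (n / (κ + 1)) : ℕ)) : ℝ) * Real.log Z ≤ ε / 8 * n := by
    have h3 : (((n / (κ + 1) : ℕ)) : ℝ) ≤ (n : ℝ) / (κ + 1) := by
      have := Nat.cast_div_le (α := ℝ) (m := n) (n := κ + 1)
      push_cast at this
      exact this
    push_cast
    calc 2 * (((n / (κ + 1) : ℕ)) : ℝ) * Real.log Z ≤ 2 * ((n : ℝ) / (κ + 1)) * Real.log Z := by
          gcongr
      _ = (2 * Real.log Z / (κ + 1)) * n := by ring
      _ ≤ ε / 8 * n := by gcongr
  have h3 : (n : ℝ) * Fintype.card (Lab Γ) / Z ≤ ε / 8 * n := by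
    rw [← hc]
    calc (n : ℝ) * c / Z = (c / Z) * n := by ring
      _ ≤ ε / 8 * n := by gcongr
  have h4 := hN1 n hn1
  have h5 : (1 : ℝ) ≤ ε / 8 * n := by
    have h6 : 8 / ε ≤ n := hm.trans hmn
    rw [div_le_iff₀ hε] at h6
    linarith
  have h6 : (n : ℝ) / Nat.clog 2 n ≤ ε / 8 * n := by
    have h7 : 8 / ε ≤ (Nat.clog 2 n : ℝ) := hm.trans hmc
    rw [div_le_iff₀ (by linarith)]
    rw [div_le_iff₀ hε] at h7
    have h8' : (0 : ℝ) ≤ n := Nat.cast_nonneg n
    nlinarith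
  linarith

/-! ### Averaging over the weights -/

/-- weights with sum zero -/
abbrev ZW (n : ℕ) (Γ : Type) [AddCommGroup Γ] : Type := {z : Fin n → Γ // ∑ v, z v = 0}

/-- few weights vanish on a given proper set -/
theorem card_zero_le {n : ℕ} {Γ : Type} [AddCommGroup Γ] [Fintype Γ] [DecidableEq Γ]
    [Fintype (ZW n Γ)] {S : Finset (Fin n)} {a b : Fin n} (ha : a ∈ S) (hb : b ∉ S) :
    Fintype.card Γ * (univ.filter (fun z : ZW n Γ => ∑ u ∈ S, z.1 u = 0)).card ≤
      Fintype.card (ZW n Γ) := by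
  classical
  have hab : a ≠ b := fun h => hb (h ▸ ha)
  have h1 : Fintype.card (ZW n Γ) =
      ∑ g : Γ, (univ.filter (fun z : ZW n Γ => ∑ u ∈ S, z.1 u = g)).card := by
    rw [← Finset.card_univ]
    exact Finset.card_eq_sum_card_fiberwise (fun z _ => Finset.mem_univ _)
  have h2 : ∀ g : Γ, (univ.filter (fun z : ZW n Γ => ∑ u ∈ S, z.1 u = 0)).card ≤
      (univ.filter (fun z : ZW n Γ => ∑ u ∈ S, z.1 u = g)).card := by
    intro g
    have hw : ∑ v, (Pi.single a g - Pi.single b g : Fin n → Γ) v = 0 := by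
      simp only [Pi.sub_apply, Finset.sum_sub_distrib, Finset.sum_pi_single', Finset.mem_univ,
        if_true, sub_self]
    have hwS : ∑ v ∈ S, (Pi.single a g - Pi.single b g : Fin n → Γ) v = g := by
      simp only [Pi.sub_apply, Finset.sum_sub_distrib, Finset.sum_pi_single', ha, hb, if_true,
        if_false, sub_zero]
    refine Finset.card_le_card_of_injOn
      (fun z => ⟨z.1 + (Pi.single a g - Pi.single b g), by
        simp only [Pi.add_apply, Finset.sum_add_distrib]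
        rw [z.2, hw, add_zero]⟩) ?_ ?_
    · intro z hz
      have hz' := (Finset.mem_filter.1 (Finset.mem_coe.1 hz)).2
      refine Finset.mem_coe.2 (Finset.mem_filter.2 ⟨Finset.mem_univ _, ?_⟩)
      simp only [Pi.add_apply, Finset.sum_add_distrib]
      rw [hz', hwS, zero_add]
    · intro z _ z' _ h
      have h3 := congrArg Subtype.val h
      simp only at h3
      exact Subtype.ext (add_right_cancel h3)
  calc Fintype.card Γ * (univ.filter (fun z : ZW n Γ => ∑ u ∈ S, z.1 u = 0)).card =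
        ∑ g : Γ, (univ.filter (fun z : ZW n Γ => ∑ u ∈ S, z.1 u = 0)).card := by
          rw [Finset.sum_const, Finset.card_univ, smul_eq_mul]
    _ ≤ ∑ g : Γ, (univ.filter (fun z : ZW n Γ => ∑ u ∈ S, z.1 u = g)).card :=
        Finset.sum_le_sum fun g _ => h2 g
    _ = Fintype.card (ZW n Γ) := h1.symm

/-- **All but a small part of the weights detect a disconnected pair.** -/
theorem family (ε δ : ℝ) (hε : 0 < ε) (hδ : 0 < δ) : ∃ N : ℕ, ∀ n : ℕ, N ≤ n →
    ∃ R : ℕ, 0 < R ∧ ∃ NO : Fin R → SimpleGraph (Fin n) → SimpleGraph (Fin n) → Prop,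
      (∀ s, HasMA n (ε * n) (fun x y => (x ⊔ y).Connected) (NO s)) ∧
      ∀ x y, ¬ (x ⊔ y).Connected → (Nat.card {s // ¬ NO s x y} : ℝ) ≤ δ * R := by
  classical
  obtain ⟨t, ht⟩ : ∃ t : ℕ, 1 / δ ≤ (2 : ℝ) ^ t := by
    obtain ⟨t, ht⟩ := exists_nat_ge (1 / δ)
    refine ⟨t, ht.trans ?_⟩
    exact_mod_cast Nat.lt_two_pow_self.le
  obtain ⟨N, hN⟩ := proto_eps (Γ := Fin t → ZMod 2) ε hε
  refine ⟨max N 1, fun n hn => ?_⟩
  have hn1 : N ≤ n := (le_max_left _ _).trans hn
  have hnpos : 0 < n := lt_of_lt_of_le one_pos ((le_max_right _ _).trans hn)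
  have : Fintype (ZW n (Fin t → ZMod 2)) := Fintype.ofFinite _
  obtain ⟨R, ⟨ix⟩⟩ : ∃ R : ℕ, Nonempty (ZW n (Fin t → ZMod 2) ≃ Fin R) := Finite.exists_equiv_fin _
  have hRc : Fintype.card (ZW n (Fin t → ZMod 2)) = R := by
    rw [Fintype.card_congr ix, Fintype.card_fin]
  have hR0 : 0 < R := by
    rw [← hRc]
    exact Fintype.card_pos_iff.2 ⟨⟨0, by simp⟩⟩
  refine ⟨R, hR0, fun s => Bad (ix.symm s).1, fun s => hN n hn1 _ (ix.symm s).2, ?_⟩
  intro x y hxy
  -- a proper component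
  obtain ⟨a, b, hab⟩ : ∃ a b : Fin n, ¬ (x ⊔ y).Reachable a b := by
    by_contra hcon
    push Not at hcon
    have : Nonempty (Fin n) := ⟨⟨0, hnpos⟩⟩
    exact hxy ⟨fun u v => hcon u v⟩
  obtain ⟨S, hS⟩ : ∃ S : Finset (Fin n), S = univ.filter (fun v => (x ⊔ y).Reachable a v) := ⟨_, rfl⟩
  have ha : a ∈ S := by rw [hS]; simp
  have hb : b ∉ S := by rw [hS]; simpa using hab
  have h1 : Nat.card {s // ¬ Bad (ix.symm s).1 x y} ≤
      (univ.filter (fun z : ZW n (Fin t → ZMod 2) => ∑ u ∈ S, z.1 u = 0)).card := by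
    rw [Nat.card_eq_fintype_card, Fintype.card_subtype]
    refine Finset.card_le_card_of_injOn (fun s => ix.symm s) ?_ (fun s _ s' _ h => ix.symm.injective h)
    intro s hs
    have hs' := (Finset.mem_filter.1 (Finset.mem_coe.1 hs)).2
    refine Finset.mem_coe.2 (Finset.mem_filter.2 ⟨Finset.mem_univ _, ?_⟩)
    by_contra hne
    refine hs' ⟨S, ?_, hne⟩
    intro u v hu huv
    rw [hS] at hu ⊢
    exact Finset.mem_filter.2 ⟨Finset.mem_univ _, (Finset.mem_filter.1 hu).2.trans huv⟩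
  have h2 := card_zero_le (Γ := Fin t → ZMod 2) ha hb
  rw [hRc] at h2
  have h3 : Fintype.card (Fin t → ZMod 2) = 2 ^ t := by
    rw [Fintype.card_fun, ZMod.card, Fintype.card_fin]
  rw [h3] at h2
  have h4 : (2 : ℝ) ^ t * Nat.card {s // ¬ Bad (ix.symm s).1 x y} ≤ R := by
    have h5 : 2 ^ t * Nat.card {s // ¬ Bad (ix.symm s).1 x y} ≤ R :=
      (Nat.mul_le_mul_left _ h1).trans h2
    exact_mod_cast h5
  have h6 : (1 : ℝ) ≤ δ * 2 ^ t := by
    rw [div_le_iff₀ hδ] at ht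
    linarith
  have h7 : (0 : ℝ) ≤ Nat.card {s // ¬ Bad (ix.symm s).1 x y} := Nat.cast_nonneg _
  calc (Nat.card {s // ¬ Bad (ix.symm s).1 x y} : ℝ) =
        1 * Nat.card {s // ¬ Bad (ix.symm s).1 x y} := by ring
    _ ≤ (δ * 2 ^ t) * Nat.card {s // ¬ Bad (ix.symm s).1 x y} := by gcongr
    _ = δ * (2 ^ t * Nat.card {s // ¬ Bad (ix.symm s).1 x y}) := by ring
    _ ≤ δ * R := by gcongr

end Pool.Agent.CF.H87
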